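import Pool.Agent.H83.NHB.Tally

/-!
Nearly honest bounds: the verification function of the graph of the bound `tt C`.
-/

namespace Pool.Agent.H83.NHB

open Pool.Agent.Lead.NTM Pool.Agent.H71.NT Pool.Agent.H79.Cx

variable {α : Type} [Enc α]

/-! ### Lists of bits as lists of numbers -/

/-- Bits from numbers. -/
def bl (l : List ℕ) : List Bool := l.map fun x => decide (x ≠ 0)

/-- Numbers from bits. -/
def lb (y : List Bool) : List ℕ := y.map fun b => if b then 1 else 0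

theorem bl_lb (y : List Bool) : bl (lb y) = y := by
  unfold bl lb
  rw [List.map_map]
  conv_rhs => rw [← List.map_id y]
  refine List.map_congr_left fun b _ => ?_
  cases b <;> rfl

theorem sz_lb (y : List Bool) : sz (lb y) ≤ 1 + y.length * 4 := by
  have h := sz_list_le (lb y) 3 fun a ha => by
    unfold lb at ha
    rw [List.mem_map] at ha
    obtain ⟨b, -, rfl⟩ := ha
    cases b <;> simp [sz_nat]
  have h1 : (lb y).length = y.length := List.length_map _
  rw [h1] at h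
  exact h

@[fun_prop]
theorem PT_bl {l : α → List ℕ} (hl : PT l) : PT (fun x => bl (l x)) := by
  unfold bl
  refine PT.map (f := fun (_ : α) (x : ℕ) => decide (x ≠ 0)) ?_ hl
  have h : PT fun p : α × ℕ => !decide (p.2 = 0) := PT.not' (by fun_prop)
  exact PT.congr h fun p => (decide_not).symm

/-! ### The two auxiliary predicates -/

/-- The precondition, as a set of numbers. -/
def P1 (C : Pool.Agent.H71.NT.Desc) (z : ℕ) : Prop := Good C z.unpair.1 z.unpair.2

/-- The verification function of the precondition. -/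
def f1 (C : Pool.Agent.H71.NT.Desc) (z : ℕ) (c : List (List ℕ)) : Bool :=
  decide (Nat.pair (Desc.at2 c 0 0) (Desc.at2 c 0 1) = z) && (decide (Desc.at2 c 0 2 ≤ Desc.at2 c 0 1) &&
    (decide ((c.getD 1 []).length ≤ Desc.at2 c 0 1) &&
    (C.valid (Nat.pair (Desc.at2 c 0 0) (Desc.at2 c 0 2)) (c.getD 1 []) && C.acc (c.getD 1 []))))

/-- The contribution predicate, as a set of numbers. -/
def P2 (C : Pool.Agent.H71.NT.Desc) (z : ℕ) : Prop :=
  ∃ j, Nat.pair (bb (j * j)) (bb (j * j) ^ kk j) = z ∧ Vf C (bb (j * j))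

/-- The verification function of the contributions. -/
def f2 (C : Pool.Agent.H71.NT.Desc) (z : ℕ) (c : List (List ℕ)) : Bool :=
  decide (Nat.pair (Desc.at2 c 0 1) (Desc.at2 c 0 2) = z) &&
    (decide (sqs (Desc.at2 c 0 1) (Desc.at2 c 0 0 * Desc.at2 c 0 0) = Desc.at2 c 0 1) &&
    (decide (pw (Desc.at2 c 0 1) (Desc.at2 c 0 2 + 1) (kk (Desc.at2 c 0 0)) = Desc.at2 c 0 2) &&
    verB C (Desc.at2 c 0 1, bl (c.getD 1 []))))

theorem pt_f1 (C : Pool.Agent.H71.NT.Desc) :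
    PT fun x : ℕ × List Bool => f1 C x.1 (decLL (parse x.2)) := by
  unfold f1
  fun_prop

theorem pt_f2 (C : Pool.Agent.H71.NT.Desc) :
    PT fun x : ℕ × List Bool => f2 C x.1 (decLL (parse x.2)) := by
  unfold f2
  refine PT.and' (by fun_prop) (PT.and' (by fun_prop) (PT.and' (by fun_prop) ?_))
  exact PT.comp (pt_verB C) (by fun_prop)

theorem pw_eq_iff {m v k : ℕ} (hm : 1 ≤ m) : pw m (v + 1) k = v ↔ m ^ k = v := by
  obtain ⟨h1, h2⟩ := pw_inv m (v + 1) k hm
  constructor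
  · intro h
    rcases h2 with h2 | h2
    · rw [← h2, h]
    · omega
  · intro h
    rcases h2 with h2 | h2
    · rw [h2, h]
    · omega

theorem f1_iff (C : Pool.Agent.H71.NT.Desc) (z : ℕ) (c : List (List ℕ)) : f1 C z c = true ↔
    Nat.pair (Desc.at2 c 0 0) (Desc.at2 c 0 1) = z ∧ Desc.at2 c 0 2 ≤ Desc.at2 c 0 1 ∧
    (c.getD 1 []).length ≤ Desc.at2 c 0 1 ∧
    C.valid (Nat.pair (Desc.at2 c 0 0) (Desc.at2 c 0 2)) (c.getD 1 []) = true ∧
    C.acc (c.getD 1 []) = true := by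
  unfold f1
  simp only [Bool.and_eq_true, decide_eq_true_eq]

theorem f2_iff (C : Pool.Agent.H71.NT.Desc) (z : ℕ) (c : List (List ℕ)) : f2 C z c = true ↔
    Nat.pair (Desc.at2 c 0 1) (Desc.at2 c 0 2) = z ∧
    bb (Desc.at2 c 0 0 * Desc.at2 c 0 0) = Desc.at2 c 0 1 ∧
    Desc.at2 c 0 1 ^ (kk (Desc.at2 c 0 0)) = Desc.at2 c 0 2 ∧
    verB C (Desc.at2 c 0 1, bl (c.getD 1 [])) = true := by
  unfold f2
  simp only [Bool.and_eq_true, decide_eq_true_eq, sqs_eq_iff]
  refine and_congr_right fun _ => and_congr_right fun h => ?_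
  rw [pw_eq_iff]
  rw [← h]
  exact (by norm_num : 1 ≤ 2).trans (two_le_bb _)

theorem exists_f1 (C : Pool.Agent.H71.NT.Desc) (z : ℕ) :
    (∃ y, f1 C z (decLL (parse y)) = true) ↔ P1 C z := by
  constructor
  · rintro ⟨y, hy⟩
    rw [f1_iff] at hy
    obtain ⟨h1, h2, h3, h4, h5⟩ := hy
    unfold P1
    rw [← h1, Nat.unpair_pair]
    exact ⟨_, h2, _, h3, h4, h5⟩
  · rintro ⟨N, hN, h, hh, hv, ha⟩
    refine ⟨cd [[z.unpair.1, z.unpair.2, N], h], ?_⟩
    rw [parse_cd, decLL_enc, f1_iff]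
    exact ⟨Nat.pair_unpair z, hN, hh, hv, ha⟩

theorem cert_f1 (C : Pool.Agent.H71.NT.Desc) : ∃ q : Polynomial ℕ, ∀ z, P1 C z →
    ∃ y, f1 C z (decLL (parse y)) = true ∧ y.length ≤ q.eval z := by
  refine ⟨20 + 6 * Polynomial.X + Polynomial.X * Polynomial.C (2 * C.nr + 2), ?_⟩
  rintro z ⟨N, hN, h, hh, hv, ha⟩
  refine ⟨cd [[z.unpair.1, z.unpair.2, N], h], ?_, ?_⟩
  · rw [parse_cd, decLL_enc, f1_iff]
    exact ⟨Nat.pair_unpair z, hN, hh, hv, ha⟩
  · rw [length_cd]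
    have e1 : sz [[z.unpair.1, z.unpair.2, N], h] = 1 + (1 + (2 * z.unpair.1 + 1) +
        (1 + (2 * z.unpair.2 + 1) + (1 + (2 * N + 1) + 1))) + (1 + sz h + 1) := by
      simp only [sz_cons, sz_nil, sz_nat]
    have e2 := sz_hist_le (Desc.lt_of_valid hv)
    have e3 : h.length * (2 * C.nr + 2) ≤ z * (2 * C.nr + 2) :=
      Nat.mul_le_mul_right _ (hh.trans (Nat.unpair_right_le z))
    have e4 := Nat.unpair_left_le z
    have e5 := Nat.unpair_right_le z
    simp only [Polynomial.eval_add, Polynomial.eval_mul, Polynomial.eval_ofNat,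
      Polynomial.eval_X, Polynomial.eval_C]
    rw [e1]
    omega

theorem exists_f2 (C : Pool.Agent.H71.NT.Desc) (z : ℕ) :
    (∃ y, f2 C z (decLL (parse y)) = true) ↔ P2 C z := by
  constructor
  · rintro ⟨y, hy⟩
    rw [f2_iff] at hy
    obtain ⟨h1, h2, h3, h4⟩ := hy
    refine ⟨Desc.at2 (decLL (parse y)) 0 0, ?_, ?_⟩
    · rw [h2, h3, h1]
    · rw [h2]
      exact (exists_verB_iff C _).1 ⟨_, h4⟩
  · rintro ⟨j, hj, hv⟩
    obtain ⟨y, hy⟩ := (exists_verB_iff C _).2 hv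
    refine ⟨cd [[j, bb (j * j), bb (j * j) ^ kk j], lb y], ?_⟩
    rw [parse_cd, decLL_enc, f2_iff]
    exact ⟨hj, rfl, rfl, by show verB C (bb (j * j), bl (lb y)) = true; rw [bl_lb, hy]⟩

/-- Certificates of contributions. -/
theorem cert_vf (C : Pool.Agent.H71.NT.Desc) : ∃ q : Polynomial ℕ, ∀ j, Vf C (bb (j * j)) →
    ∃ y, verB C (bb (j * j), y) = true ∧ y.length ≤ q.eval (bb (j * j) + bb (j * j) ^ kk j) := by
  obtain ⟨Q, hQ⟩ := exists_cert C
  refine ⟨Q, ?_⟩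
  rintro j ⟨i, hi, hg, hh⟩
  have hij := bb_sq_inj hi
  subst hij
  exact hQ _ _ rfl hg hh

theorem cert_f2 (C : Pool.Agent.H71.NT.Desc) : ∃ q : Polynomial ℕ, ∀ z, P2 C z →
    ∃ y, f2 C z (decLL (parse y)) = true ∧ y.length ≤ q.eval z := by
  obtain ⟨Q, hQ⟩ := cert_vf C
  refine ⟨20 + 6 * Polynomial.X + 4 * Q.comp (2 * Polynomial.X), ?_⟩
  rintro z ⟨j, hj, hv⟩
  obtain ⟨y, hy, hyl⟩ := hQ j hv
  refine ⟨cd [[j, bb (j * j), bb (j * j) ^ kk j], lb y], ?_, ?_⟩
  · rw [parse_cd, decLL_enc, f2_iff]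
    exact ⟨hj, rfl, rfl, by show verB C (bb (j * j), bl (lb y)) = true; rw [bl_lb, hy]⟩
  · rw [length_cd]
    have e1 : sz [[j, bb (j * j), bb (j * j) ^ kk j], lb y] = 1 + (1 + (2 * j + 1) +
        (1 + (2 * bb (j * j) + 1) + (1 + (2 * bb (j * j) ^ kk j + 1) + 1))) +
        (1 + sz (lb y) + 1) := by
      simp only [sz_cons, sz_nil, sz_nat]
    have e2 := sz_lb y
    have e4 : bb (j * j) ≤ z := by
      rw [← hj]
      exact Nat.left_le_pair _ _
    have e5 : bb (j * j) ^ kk j ≤ z := by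
      rw [← hj]
      exact Nat.right_le_pair _ _
    have e6 := le_bb_sq j
    have e7 : Q.eval (bb (j * j) + bb (j * j) ^ kk j) ≤ Q.eval (2 * z) := eval_mono Q (by omega)
    simp only [Polynomial.eval_add, Polynomial.eval_mul, Polynomial.eval_ofNat,
      Polynomial.eval_X, Polynomial.eval_comp]
    rw [e1]
    omega

/-! ### The bound on blocks -/

/-- `n` lies in the block `j`. -/
def Blk (j n : ℕ) : Prop := bb (j * j) ≤ n ∧ n < bb ((j + 1) * (j + 1))

theorem exists_blk {n : ℕ} (hn : 2 ≤ n) : ∃ j, Blk j n := by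
  classical
  have h : ∃ j, n < bb ((j + 1) * (j + 1)) := ⟨n, by
    have h1 := le_bb_sq (n + 1)
    omega⟩
  refine ⟨Nat.find h, ?_, Nat.find_spec h⟩
  rcases Nat.eq_zero_or_pos (Nat.find h) with h0 | h0
  · rw [h0]
    exact hn
  · have h1 := Nat.find_min h (m := Nat.find h - 1) (by omega)
    rw [Nat.sub_add_cancel h0] at h1
    exact not_lt.1 h1

theorem tt_small (C : Pool.Agent.H71.NT.Desc) {n : ℕ} (hn : n < 2) : tt C n = n := by
  unfold tt
  refine max_eq_left (WT_le C fun m hm => ?_)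
  unfold wt
  rw [if_neg]
  · exact Nat.zero_le _
  · rintro ⟨i, hi, -⟩
    have := two_le_bb (i * i)
    omega

theorem tt_blk_of (C : Pool.Agent.H71.NT.Desc) {j n : ℕ} (hb : Blk j n)
    (hv : Vf C (bb (j * j))) : tt C n = max n (bb (j * j) ^ kk j) := by
  have hw : wt C (bb (j * j)) = bb (j * j) ^ kk j := by
    unfold wt
    rw [if_pos hv, jj_bb]
  refine le_antisymm ?_ ?_
  · refine max_le (le_max_left _ _) (WT_le C fun m hm => ?_)
    rcases lt_trichotomy m (bb (j * j)) with h | h | h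
    · exact ((wt_lt C h).le.trans hb.1).trans (le_max_left _ _)
    · rw [h, hw]
      exact le_max_right _ _
    · unfold wt
      rw [if_neg]
      · exact Nat.zero_le _
      · rintro ⟨i, hi, -⟩
        have h1 : i * i < (j + 1) * (j + 1) := bb_strictMono.lt_iff_lt.1 (by
          rw [hi]
          exact hm.trans_lt hb.2)
        have h2 : j * j < i * i := bb_strictMono.lt_iff_lt.1 (by rw [hi]; exact h)
        have h3 := Nat.mul_self_lt_mul_self_iff.1 h1
        have h4 := Nat.mul_self_lt_mul_self_iff.1 h2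
        omega
  · refine max_le (le_max_left _ _) ?_
    rw [← hw]
    exact ((wt_le_WT C _).trans (monotone_WT C hb.1)).trans (le_max_right _ _)

theorem tt_blk_not (C : Pool.Agent.H71.NT.Desc) {j n : ℕ} (hb : Blk j n)
    (hv : ¬ Vf C (bb (j * j))) : tt C n = n := by
  unfold tt
  refine max_eq_left (WT_le C fun m hm => ?_)
  rcases lt_trichotomy m (bb (j * j)) with h | h | h
  · exact (wt_lt C h).le.trans hb.1
  · unfold wt
    rw [h, if_neg hv]
    exact Nat.zero_le _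
  · unfold wt
    rw [if_neg]
    · exact Nat.zero_le _
    · rintro ⟨i, hi, -⟩
      have h1 : i * i < (j + 1) * (j + 1) := bb_strictMono.lt_iff_lt.1 (by
        rw [hi]
        exact hm.trans_lt hb.2)
      have h2 : j * j < i * i := bb_strictMono.lt_iff_lt.1 (by rw [hi]; exact h)
      have h3 := Nat.mul_self_lt_mul_self_iff.1 h1
      have h4 := Nat.mul_self_lt_mul_self_iff.1 h2
      omega

/-! ### The verification function of the graph -/

/-- The verification function of the graph of `tt C`. -/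
def gv (C : Pool.Agent.H71.NT.Desc) (g1 g2 : ℕ × List Bool → Bool) (z : ℕ) (c : List (List ℕ)) :
    Bool :=
  decide (Nat.pair (Desc.at2 c 0 0) (Desc.at2 c 0 1) = z) &&
  ((decide (Desc.at2 c 0 0 < 2) && decide (Desc.at2 c 0 1 = Desc.at2 c 0 0)) ||
  ((decide (sqs (Desc.at2 c 0 0) (Desc.at2 c 0 2 * Desc.at2 c 0 2) = Desc.at2 c 0 3) &&
    (decide (Desc.at2 c 0 3 ≤ Desc.at2 c 0 0) &&
    decide (Desc.at2 c 0 0 <
      sqs (Desc.at2 c 0 0) ((Desc.at2 c 0 2 + 1) * (Desc.at2 c 0 2 + 1))))) &&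
  ((decide (pw (Desc.at2 c 0 3) (Desc.at2 c 0 4 + 1) (kk (Desc.at2 c 0 2)) = Desc.at2 c 0 4) &&
    ((verB C (Desc.at2 c 0 3, bl (c.getD 1 [])) &&
      decide (Desc.at2 c 0 1 =
        if Desc.at2 c 0 0 ≤ Desc.at2 c 0 4 then Desc.at2 c 0 4 else Desc.at2 c 0 0)) ||
    (g2 (Nat.pair (Desc.at2 c 0 3) (Desc.at2 c 0 4), bl (c.getD 1 [])) &&
      decide (Desc.at2 c 0 1 = Desc.at2 c 0 0)))) ||
  (g1 (Nat.pair (kk (Desc.at2 c 0 2)) (Desc.at2 c 0 3), bl (c.getD 1 [])) &&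
    decide (Desc.at2 c 0 1 = Desc.at2 c 0 0)))))

theorem pt_gv (C : Pool.Agent.H71.NT.Desc) {g1 g2 : ℕ × List Bool → Bool} (h1 : PT g1)
    (h2 : PT g2) : PT fun x : ℕ × List Bool => gv C g1 g2 x.1 (decLL (parse x.2)) := by
  unfold gv
  refine PT.and' (by fun_prop) (PT.or' (by fun_prop) (PT.and' (by fun_prop) (PT.or'
    (PT.and' (by fun_prop) (PT.or' (PT.and' ?_ (by fun_prop)) (PT.and' ?_ (by fun_prop))))
    (PT.and' ?_ (by fun_prop)))))
  · exact PT.comp (pt_verB C) (by fun_prop)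
  · exact PT.comp h2 (by fun_prop)
  · exact PT.comp h1 (by fun_prop)

theorem blk_of_sqs {n j m : ℕ} (h1 : sqs n (j * j) = m) (h2 : m ≤ n)
    (h3 : n < sqs n ((j + 1) * (j + 1))) : m = bb (j * j) ∧ Blk j n := by
  have e1 : m = bb (j * j) := by
    rcases sqs_inv n (j * j) with h | ⟨h, -⟩
    · rw [← h1, h]
    · omega
  refine ⟨e1, e1 ▸ h2, ?_⟩
  rcases sqs_inv n ((j + 1) * (j + 1)) with h | ⟨h, h'⟩
  · rw [← h]
    exact h3
  · exact h3.trans_le h'

theorem sqs_of_blk {n j : ℕ} (h : Blk j n) : sqs n (j * j) = bb (j * j) ∧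
    n < sqs n ((j + 1) * (j + 1)) := by
  constructor
  · rcases sqs_inv n (j * j) with h1 | ⟨h1, h2⟩
    · exact h1
    · have := h.1
      omega
  · rcases sqs_inv n ((j + 1) * (j + 1)) with h1 | ⟨h1, -⟩
    · rw [h1]
      exact h.2
    · exact h1

/-- The verification function is sound. -/
theorem gv_sound (C : Pool.Agent.H71.NT.Desc) {g1 g2 : ℕ × List Bool → Bool}
    (hg1 : ∀ z, (∃ y, g1 (z, y) = true) ↔ ¬ P1 C z) (hg2 : ∀ z, (∃ y, g2 (z, y) = true) ↔ ¬ P2 C z)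
    {z : ℕ} {c : List (List ℕ)} (h : gv C g1 g2 z c = true) : ∃ n, Nat.pair n (tt C n) = z := by
  unfold gv at h
  simp only [Bool.and_eq_true, Bool.or_eq_true, decide_eq_true_eq] at h
  obtain ⟨h1, h2⟩ := h
  refine ⟨Desc.at2 c 0 0, ?_⟩
  rw [← h1]
  congr 1
  rcases h2 with ⟨h2, h3⟩ | ⟨⟨h2, h3, h4⟩, h5⟩
  · rw [tt_small C h2, h3]
  · obtain ⟨e1, e2⟩ := blk_of_sqs h2 h3 h4
    have hpos : 1 ≤ Desc.at2 c 0 3 := by
      rw [e1]
      exact (by norm_num : 1 ≤ 2).trans (two_le_bb _)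
    rcases h5 with ⟨h5, h6⟩ | ⟨h5, h6⟩
    · rw [pw_eq_iff hpos] at h5
      rcases h6 with ⟨h6, h7⟩ | ⟨h6, h7⟩
      · have hv : Vf C (bb (Desc.at2 c 0 2 * Desc.at2 c 0 2)) := by
          rw [← e1]
          exact (exists_verB_iff C _).1 ⟨_, h6⟩
        rw [tt_blk_of C e2 hv, h7, ← e1, h5]
        split_ifs with h8
        · exact max_eq_right h8
        · exact max_eq_left (by omega)
      · have hv : ¬ Vf C (bb (Desc.at2 c 0 2 * Desc.at2 c 0 2)) := by
          intro hv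
          refine (hg2 _).1 ⟨_, h6⟩ ⟨Desc.at2 c 0 2, ?_, hv⟩
          rw [← e1, h5]
        rw [tt_blk_not C e2 hv, h7]
    · have hv : ¬ Vf C (bb (Desc.at2 c 0 2 * Desc.at2 c 0 2)) := by
        rintro ⟨i, hi, hg, -⟩
        have hij := bb_sq_inj hi
        refine (hg1 _).1 ⟨_, h5⟩ ?_
        unfold P1
        rw [Nat.unpair_pair, ← hij, e1, ← hij]
        rw [← hij] at hg
        exact hg
      rw [tt_blk_not C e2 hv, h6]

end Pool.Agent.H83.NHB
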