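import Pool.Agent.H83.NHB.Graph

/-!
Nearly honest bounds: just above `NP` there are bounds whose graphs are easy and for which
`NTIME(Pol t)` is not closed under complementation.
-/

namespace Pool.Agent.H83.NHB

open Pool.Agent.Lead.NTM Pool.Agent.H71.NT Pool.Agent.H79.Cx
open Pool.Agent.H83.NT (closed_iff)

/-- The graph of `t`, in unary, is accepted by a machine which accepts each of its points within
`p (u n)` steps. -/
def GraphIn (u t : ℕ → ℕ) : Prop :=
  ∃ (M : Machine Unit) (p : Polynomial ℕ),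
    (∀ n m, Accepts M (List.replicate (Nat.pair n m) ()) ↔ m = t n) ∧
    ∀ n, ∃ s ≤ p.eval (u n), AcceptsIn M (List.replicate (Nat.pair n (t n)) ()) s

/-- From a verification function to a machine. -/
theorem graphIn_of_ver {u t : ℕ → ℕ} {f : ℕ × List Bool → Bool} (hf : PT f)
    (h1 : ∀ z y, f (z, y) = true → ∃ n, Nat.pair n (t n) = z)
    {q : Polynomial ℕ} (h2 : ∀ n, ∃ y, f (Nat.pair n (t n), y) = true ∧ y.length ≤ q.eval (u n))
    (hu : ∀ n, n ≤ u n ∧ t n ≤ u n) : GraphIn u t := by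
  obtain ⟨T, hT⟩ := exists_guess_machine hf
  obtain ⟨N, hN, hN'⟩ := hT Unit
  refine ⟨N, T.comp ((2 * Polynomial.X + 1) * (2 * Polynomial.X + 1) + q), fun n m => ?_,
    fun n => ?_⟩
  · rw [hN, List.length_replicate]
    constructor
    · rintro ⟨y, hy⟩
      obtain ⟨i, hi⟩ := h1 _ _ hy
      rw [Nat.pair_eq_pair] at hi
      rw [← hi.1, hi.2]
    · rintro rfl
      obtain ⟨y, hy, -⟩ := h2 n
      exact ⟨y, hy⟩
  · obtain ⟨y, hy, hyl⟩ := h2 n
    obtain ⟨s, hs, hacc⟩ := hN' (List.replicate (Nat.pair n (t n)) ()) y (by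
      rw [List.length_replicate]
      exact hy)
    rw [List.length_replicate] at hs
    refine ⟨s, hs.trans ?_, hacc⟩
    simp only [Polynomial.eval_comp, Polynomial.eval_add, Polynomial.eval_mul,
      Polynomial.eval_X, Polynomial.eval_ofNat, Polynomial.eval_one]
    refine eval_mono T (Nat.add_le_add ?_ hyl)
    have h3 := Nat.pair_lt_max_add_one_sq n (t n)
    obtain ⟨h4, h5⟩ := hu n
    have h6 : max n (t n) ≤ u n := max_le h4 h5
    calc Nat.pair n (t n) ≤ (max n (t n) + 1) ^ 2 := h3.le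
      _ ≤ (u n + 1) ^ 2 := Nat.pow_le_pow_left (by omega) 2
      _ = (u n + 1) * (u n + 1) := sq _
      _ ≤ (2 * u n + 1) * (2 * u n + 1) := Nat.mul_le_mul (by omega) (by omega)

theorem le_pow_h {h : ℕ → ℕ} (h1 : ∀ n, 1 ≤ h n) (n : ℕ) : n ≤ n ^ h n := by
  rcases Nat.eq_zero_or_pos n with h0 | h0
  · omega
  · calc n = n ^ 1 := (pow_one n).symm
      _ ≤ n ^ h n := Nat.pow_le_pow_right h0 (h1 n)

/-- The first case: `t` is the identity. -/
theorem graphIn_id {h : ℕ → ℕ} (h1 : ∀ n, 1 ≤ h n) : GraphIn (fun n => n ^ h n) fun n => n := by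
  have hf : PT fun x : ℕ × List Bool => decide (Nat.pair (Desc.at2 (decLL (parse x.2)) 0 0)
      (Desc.at2 (decLL (parse x.2)) 0 0) = x.1) := by fun_prop
  refine graphIn_of_ver (q := 20 + 4 * Polynomial.X) hf (fun z y hy => ?_) (fun n => ?_)
    fun n => ⟨le_pow_h h1 n, le_pow_h h1 n⟩
  · exact ⟨_, of_decide_eq_true hy⟩
  · refine ⟨cd [[n]], ?_, ?_⟩
    · show decide (Nat.pair (Desc.at2 (decLL (parse (cd [[n]]))) 0 0)
        (Desc.at2 (decLL (parse (cd [[n]]))) 0 0) = Nat.pair n n) = true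
      rw [parse_cd, decLL_enc]
      exact decide_eq_true rfl
    · rw [length_cd]
      have e1 : sz [[n]] = 1 + (1 + (2 * n + 1) + 1) + 1 := by
        simp only [sz_cons, sz_nil, sz_nat]
      have e2 := le_pow_h h1 n
      simp only [Polynomial.eval_add, Polynomial.eval_mul, Polynomial.eval_ofNat,
        Polynomial.eval_X]
      rw [e1]
      omega

/-- The second case: the graph of `tt C`. -/
theorem graphIn_tt {h : ℕ → ℕ} (h1 : ∀ n, 1 ≤ h n) {C : Pool.Agent.H71.NT.Desc}
    (hgood : ∀ {k n : ℕ}, Good C k n → k ≤ h n) (hm : Monotone h) (ht : ∀ n, tt C n ≤ n ^ h n)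
    (hcl : NTIMEPol Unit (fun n => n) = coNTIMEPol Unit (fun n => n)) :
    GraphIn (fun n => n ^ h n) (tt C) := by
  obtain ⟨q1, hq1⟩ := cert_f1 C
  obtain ⟨q2, hq2⟩ := cert_f2 C
  obtain ⟨q3, hq3⟩ := cert_vf C
  obtain ⟨g1, pg1, hg1, r1, hr1⟩ := cocert hcl (pt_f1 C) (exists_f1 C) hq1
  obtain ⟨g2, pg2, hg2, r2, hr2⟩ := cocert hcl (pt_f2 C) (exists_f2 C) hq2
  have hbound : ∀ {j n : ℕ}, bb (j * j) ≤ n → Good C (kk j) (bb (j * j)) →
      bb (j * j) ^ kk j ≤ n ^ h n := by
    intro j n hj hg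
    have hpos : 0 < bb (j * j) := (by norm_num : 0 < 2).trans_le (two_le_bb _)
    calc bb (j * j) ^ kk j ≤ bb (j * j) ^ h (bb (j * j)) :=
          Nat.pow_le_pow_right hpos (hgood hg)
      _ ≤ bb (j * j) ^ h n := Nat.pow_le_pow_right hpos (hm hj)
      _ ≤ n ^ h n := Nat.pow_le_pow_left hj _
  have hpair : ∀ {a b u : ℕ}, a ≤ u → b ≤ u → Nat.pair a b ≤ (u + 1) * (u + 1) := by
    intro a b u ha hb
    calc Nat.pair a b ≤ (max a b + 1) ^ 2 := (Nat.pair_lt_max_add_one_sq a b).le
      _ ≤ (u + 1) ^ 2 := Nat.pow_le_pow_left (Nat.succ_le_succ (max_le ha hb)) 2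
      _ = (u + 1) * (u + 1) := sq _
  -- sizes of certificates
  have hsz : ∀ (n m j M v u : ℕ) (y : List Bool), n ≤ u → m ≤ u → j ≤ u → M ≤ u → v ≤ u →
      (cd [[n, m, j, M, v], lb y]).length ≤ 30 + 10 * u + 4 * y.length := by
    intro n m j M v u y a1 a2 a3 a4 a5
    rw [length_cd]
    have e1 : sz [[n, m, j, M, v], lb y] = 1 + (1 + (2 * n + 1) + (1 + (2 * m + 1) +
        (1 + (2 * j + 1) + (1 + (2 * M + 1) + (1 + (2 * v + 1) + 1))))) +
        (1 + sz (lb y) + 1) := by
      simp only [sz_cons, sz_nil, sz_nat]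
    have e2 := sz_lb y
    rw [e1]
    omega
  refine graphIn_of_ver (f := fun x => gv C g1 g2 x.1 (decLL (parse x.2)))
    (q := 30 + 10 * Polynomial.X + 4 * (q3.comp (2 * Polynomial.X) +
      r1.comp ((Polynomial.X + 1) * (Polynomial.X + 1)) +
      r2.comp ((Polynomial.X + 1) * (Polynomial.X + 1)))) (pt_gv C pg1 pg2)
    (fun z y hy => gv_sound C hg1 hg2 hy) (fun n => ?_) fun n => ⟨le_pow_h h1 n, ht n⟩
  simp only [Polynomial.eval_add, Polynomial.eval_mul, Polynomial.eval_ofNat,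
    Polynomial.eval_X, Polynomial.eval_comp, Polynomial.eval_one]
  have hn := le_pow_h h1 n
  rcases lt_or_ge n 2 with h2 | h2
  · refine ⟨cd [[n, tt C n, 0, 0, 0], lb []], ?_, ?_⟩
    · show gv C g1 g2 _ (decLL (parse (cd [[n, tt C n, 0, 0, 0], lb []]))) = true
      rw [parse_cd, decLL_enc]
      unfold gv
      simp only [Bool.and_eq_true, Bool.or_eq_true, decide_eq_true_eq]
      exact ⟨rfl, Or.inl ⟨h2, tt_small C h2⟩⟩
    · refine (hsz n (tt C n) 0 0 0 (n ^ h n) [] hn (ht n) (Nat.zero_le _) (Nat.zero_le _)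
        (Nat.zero_le _)).trans ?_
      simp only [List.length_nil]
      omega
  · obtain ⟨j, hj⟩ := exists_blk h2
    obtain ⟨s1, s2⟩ := sqs_of_blk hj
    have hpos : 1 ≤ bb (j * j) := (by norm_num : 1 ≤ 2).trans (two_le_bb _)
    have hjn : j ≤ n ^ h n := ((le_bb_sq j).trans hj.1).trans hn
    have hMn : bb (j * j) ≤ n ^ h n := hj.1.trans hn
    by_cases hv : Vf C (bb (j * j))
    · -- the test succeeds
      obtain ⟨y, hy, hyl⟩ := hq3 j hv
      have hg : Good C (kk j) (bb (j * j)) := by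
        obtain ⟨i, hi, hg, -⟩ := hv
        have hij := bb_sq_inj hi
        rw [hij] at hg
        exact hg
      have hb := hbound hj.1 hg
      refine ⟨cd [[n, tt C n, j, bb (j * j), bb (j * j) ^ kk j], lb y], ?_, ?_⟩
      · show gv C g1 g2 _ (decLL (parse (cd [[n, tt C n, j, bb (j * j), bb (j * j) ^ kk j],
          lb y]))) = true
        rw [parse_cd, decLL_enc]
        unfold gv
        simp only [Bool.and_eq_true, Bool.or_eq_true, decide_eq_true_eq]
        refine ⟨rfl, Or.inr ⟨⟨s1, hj.1, s2⟩, Or.inl ⟨(pw_eq_iff hpos).2 rfl, Or.inl ⟨?_, ?_⟩⟩⟩⟩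
        · show verB C (bb (j * j), bl (lb y)) = true
          rw [bl_lb, hy]
        · show tt C n = if n ≤ bb (j * j) ^ kk j then bb (j * j) ^ kk j else n
          rw [tt_blk_of C hj hv]
          split_ifs with h8
          · exact max_eq_right h8
          · exact max_eq_left (by omega)
      · refine (hsz n (tt C n) j _ _ (n ^ h n) y hn (ht n) hjn hMn hb).trans ?_
        have e1 : q3.eval (bb (j * j) + bb (j * j) ^ kk j) ≤ q3.eval (2 * n ^ h n) :=
          eval_mono q3 (by omega)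
        omega
    · by_cases hg : Good C (kk j) (bb (j * j))
      · -- the test fails
        have hb := hbound hj.1 hg
        have hP : ¬ P2 C (Nat.pair (bb (j * j)) (bb (j * j) ^ kk j)) := by
          rintro ⟨i, hi, hvi⟩
          rw [Nat.pair_eq_pair] at hi
          have hij := bb_sq_inj hi.1
          rw [hij] at hvi
          exact hv hvi
        obtain ⟨y, hy, hyl⟩ := hr2 _ hP
        refine ⟨cd [[n, tt C n, j, bb (j * j), bb (j * j) ^ kk j], lb y], ?_, ?_⟩
        · show gv C g1 g2 _ (decLL (parse (cd [[n, tt C n, j, bb (j * j), bb (j * j) ^ kk j],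
            lb y]))) = true
          rw [parse_cd, decLL_enc]
          unfold gv
          simp only [Bool.and_eq_true, Bool.or_eq_true, decide_eq_true_eq]
          refine ⟨rfl, Or.inr ⟨⟨s1, hj.1, s2⟩, Or.inl ⟨(pw_eq_iff hpos).2 rfl,
            Or.inr ⟨?_, tt_blk_not C hj hv⟩⟩⟩⟩
          show g2 (Nat.pair (bb (j * j)) (bb (j * j) ^ kk j), bl (lb y)) = true
          rw [bl_lb, hy]
        · refine (hsz n (tt C n) j _ _ (n ^ h n) y hn (ht n) hjn hMn hb).trans ?_
          have e1 : r2.eval (Nat.pair (bb (j * j)) (bb (j * j) ^ kk j)) ≤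
              r2.eval ((n ^ h n + 1) * (n ^ h n + 1)) := eval_mono r2 (hpair hMn hb)
          omega
      · -- no test
        have hP : ¬ P1 C (Nat.pair (kk j) (bb (j * j))) := by
          unfold P1
          rw [Nat.unpair_pair]
          exact hg
        obtain ⟨y, hy, hyl⟩ := hr1 _ hP
        refine ⟨cd [[n, tt C n, j, bb (j * j), 0], lb y], ?_, ?_⟩
        · show gv C g1 g2 _ (decLL (parse (cd [[n, tt C n, j, bb (j * j), 0],
            lb y]))) = true
          rw [parse_cd, decLL_enc]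
          unfold gv
          simp only [Bool.and_eq_true, Bool.or_eq_true, decide_eq_true_eq]
          refine ⟨rfl, Or.inr ⟨⟨s1, hj.1, s2⟩, Or.inr ⟨?_, tt_blk_not C hj hv⟩⟩⟩
          show g1 (Nat.pair (kk j) (bb (j * j)), bl (lb y)) = true
          rw [bl_lb, hy]
        · refine (hsz n (tt C n) j _ 0 (n ^ h n) y hn (ht n) hjn hMn (Nat.zero_le _)).trans ?_
          have e1 : r1.eval (Nat.pair (kk j) (bb (j * j))) ≤
              r1.eval ((n ^ h n + 1) * (n ^ h n + 1)) :=
            eval_mono r1 (hpair ((kk_le j).trans hjn) hMn)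
          omega

/-- Failure just above `NP`, with the form of the bound. -/
theorem near' {h : ℕ → ℕ} (hc : Computable h) (hm : Monotone h) (hu : ∀ k, ∃ n, k ≤ h n)
    (h1 : ∀ n, 1 ≤ h n) :
    ∃ C : Pool.Agent.H71.NT.Desc, (∀ {k n : ℕ}, Good C k n → k ≤ h n) ∧
      (∀ n, tt C n ≤ n ^ h n) ∧ (∃ᶠ n in Filter.atTop, tt C n = n) ∧
      ∀ (A : Type) [Finite A] [Nonempty A], ∃ L ∈ NTIMEPol A (tt C), Lᶜ ∉ NTIMEPol A (tt C) := by
  classical
  have hre : REPred fun z : ℕ => z.unpair.1 ≤ h z.unpair.2 := by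
    refine ComputablePred.to_re ?_
    have hf : Computable fun z : ℕ => decide (z.unpair.1 ≤ h z.unpair.2) :=
      (Primrec.nat_le.decide.to_comp).comp (Computable.fst.comp Primrec.unpair.to_comp)
        (hc.comp (Computable.snd.comp Primrec.unpair.to_comp))
    exact ⟨inferInstance, hf⟩
  obtain ⟨C, hC⟩ := exists_desc_of_re hre
  have hgood : ∀ {k n : ℕ}, Good C k n → k ≤ h n := by
    rintro k n ⟨N, hN, x, -, hv, ha⟩
    have h2 := (hC (Nat.pair k N)).2 ⟨x, hv, ha⟩
    rw [Nat.unpair_pair] at h2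
    exact h2.trans (hm hN)
  refine ⟨C, hgood, ?_, ?_, ?_⟩
  · -- upper bound
    intro n
    refine max_le ?_ (WT_le C fun m hmn => ?_)
    · rcases Nat.eq_zero_or_pos n with h0 | h0
      · omega
      · calc n = n ^ 1 := (pow_one n).symm
          _ ≤ n ^ h n := Nat.pow_le_pow_right h0 (h1 n)
    · unfold wt
      split_ifs with hv
      · obtain ⟨j, hj, hg, -⟩ := hv
        have hpos : 0 < m := by
          rw [← hj]
          exact (by norm_num : 0 < 2).trans_le (two_le_bb _)
        have h2 : jj m = j := by rw [← hj, jj_bb]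
        rw [h2]
        calc m ^ kk j ≤ m ^ h m := Nat.pow_le_pow_right hpos (hgood hg)
          _ ≤ m ^ h n := Nat.pow_le_pow_right hpos (hm hmn)
          _ ≤ n ^ h n := Nat.pow_le_pow_left hmn _
      · exact Nat.zero_le _
  · -- equality infinitely often
    rw [Filter.frequently_atTop]
    intro B
    refine ⟨bb ((B + 1) * (B + 1)) - 1, ?_, tt_pred C _⟩
    have := lt_bb ((B + 1) * (B + 1))
    have h2 : B + 1 ≤ (B + 1) * (B + 1) := Nat.le_mul_of_pos_left _ (by omega)
    show B ≤ _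
    omega
  intro A _ _
  obtain ⟨T, hT⟩ := exists_guess_machine (pt_verB C)
  obtain ⟨Q, hQ⟩ := exists_cert C
  refine ⟨{w | Vf C w.length}, ?_, ?_⟩
  · -- membership
    obtain ⟨M, hM, hM'⟩ := hT A
    refine ⟨M, T.comp (Polynomial.X + Q.comp (2 * Polynomial.X)), ?_, ?_⟩
    · intro w
      rw [hM, exists_verB_iff]
      rfl
    · intro w hw
      obtain ⟨j, hj, hg, hh⟩ := id hw
      obtain ⟨y, hy, hyl⟩ := hQ _ j hj hg hh
      obtain ⟨s, hs, ha⟩ := hM' w y hy
      refine ⟨s, hs.trans ?_, ha⟩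
      simp only [Polynomial.eval_comp, Polynomial.eval_add, Polynomial.eval_X,
        Polynomial.eval_mul, Polynomial.eval_ofNat]
      have h2 : w.length ≤ tt C w.length := le_max_left _ _
      have h3 : w.length ^ kk j ≤ tt C w.length := by
        refine le_trans ?_ ((wt_le_WT C w.length).trans (le_max_right _ _))
        have hw' : Vf C w.length := hw
        unfold wt
        rw [if_pos hw', ← hj, jj_bb]
      refine eval_mono T (Nat.add_le_add h2 (hyl.trans (eval_mono Q ?_)))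
      omega
  · -- the complement
    rintro ⟨M, p, hM, hp⟩
    obtain ⟨a⟩ := ‹Nonempty A›
    obtain ⟨k, hk⟩ := exists_pow_bound' p
    obtain ⟨N, hN⟩ := hu k
    obtain ⟨x, hxv, hxa⟩ := (hC (Nat.pair k N)).1 (by rw [Nat.unpair_pair]; exact hN)
    obtain ⟨j, hjB, hjk, hjd⟩ := exists_index_desc k (descM M a) (max N x.length)
    set n := bb (j * j) with hn
    have hjn : j ≤ n := le_bb_sq j
    have hg : Good C (kk j) n := by
      rw [hjk]
      exact ⟨N, by omega, x, by omega, hxv, hxa⟩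
    have hV : Vf C n ↔ ∃ s ≤ n ^ k, AcceptsIn M (List.replicate n a) s := by
      constructor
      · rintro ⟨i, hi, -, y, hy, hyv, hya⟩
        have hij := bb_sq_inj hi
        subst hij
        rw [hjk] at hy
        rw [hjd] at hyv hya
        exact ⟨y.length, hy, (acceptsIn_iff_desc M a n _).2 ⟨y, rfl, hyv, hya⟩⟩
      · rintro ⟨s, hs, hacc⟩
        obtain ⟨y, hyl, hyv, hya⟩ := (acceptsIn_iff_desc M a n _).1 hacc
        refine ⟨j, rfl, hg, y, ?_, ?_, ?_⟩
        · rw [hjk, hyl]; exact hs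
        · rw [hjd]; exact hyv
        · rw [hjd]; exact hya
    have hlen : (List.replicate n a).length = n := List.length_replicate
    by_cases hv : Vf C n
    · obtain ⟨s, -, hacc⟩ := hV.1 hv
      have h2 : List.replicate n a ∈ ({w : List A | Vf C w.length})ᶜ := (hM _).2 ⟨s, hacc⟩
      refine h2 ?_
      show Vf C (List.replicate n a).length
      rw [hlen]
      exact hv
    · have h2 : List.replicate n a ∈ ({w : List A | Vf C w.length})ᶜ := by
        intro h3
        have h4 : Vf C (List.replicate n a).length := h3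
        rw [hlen] at h4
        exact hv h4
      obtain ⟨s, hs, hacc⟩ := hp _ h2
      refine hv (hV.2 ⟨s, hs.trans ?_, hacc⟩)
      rw [hlen, hn, tt_of_not C hv]
      exact hk _ (two_le_bb _)

/-- **Nearly honest bounds without closure.** -/
theorem near_honest {h : ℕ → ℕ} (hc : Computable h) (hm : Monotone h) (hu : ∀ k, ∃ n, k ≤ h n)
    (h1 : ∀ n, 1 ≤ h n) :
    ∃ t : ℕ → ℕ, Primrec t ∧ Monotone t ∧ (∀ n, n ≤ t n ∧ t n ≤ n ^ h n) ∧
      (∃ᶠ n in Filter.atTop, t n = n) ∧ GraphIn (fun n => n ^ h n) t ∧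
      ∀ (A : Type) [Finite A] [Nonempty A], NTIMEPol A t ≠ coNTIMEPol A t := by
  by_cases hcl : NTIMEPol Unit (fun n => n) = coNTIMEPol Unit (fun n => n)
  · obtain ⟨C, hgood, hub, hio, hne⟩ := near' hc hm hu h1
    refine ⟨tt C, primrec_tt C, monotone_tt C, fun n => ⟨le_max_left _ _, hub n⟩, hio,
      graphIn_tt h1 hgood hm hub hcl, fun A _ _ hA => ?_⟩
    obtain ⟨L, hL, hL'⟩ := hne A
    exact hL' (closed_iff.1 hA L hL)
  · exact ⟨fun n => n, Primrec.id, monotone_id, fun n => ⟨le_rfl, le_pow_h h1 n⟩,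
      Filter.Frequently.of_forall fun _ => rfl, graphIn_id h1,
      fun A _ _ => not_closed_of_tally (fun _ => le_rfl) hcl A⟩

end Pool.Agent.H83.NHB
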