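import Pool.Agent.H71.NT.Near2
import Pool.Agent.H83.NT.Main

/-!
Nearly honest bounds: tally languages. Transfer of tally languages between alphabets, and
certificates for the complements of tally languages in `NP` if these are in `NP`.
-/

namespace Pool.Agent.H83.NHB

open Pool.Agent.Lead.NTM Pool.Agent.H71.NT Pool.Agent.H79.Cx
open Pool.Agent.H83.NT (closed_iff)

/-- The checking function of the histories of a fixed machine. -/
def hchk (D : Pool.Agent.H71.NT.Desc) (x : ℕ × List Bool) : Bool :=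
  D.valid x.1 ((decLL (parse x.2)).getD 0 []) && D.acc ((decLL (parse x.2)).getD 0 [])

theorem pt_hchk (D : Pool.Agent.H71.NT.Desc) : PT (hchk D) := by
  show PT fun x => hchk D x
  unfold hchk
  fun_prop

theorem hchk_cd (D : Pool.Agent.H71.NT.Desc) (n : ℕ) (h : List ℕ) :
    hchk D (n, cd [h]) = (D.valid n h && D.acc h) := by
  unfold hchk
  have h0 : decLL (parse (cd [h])) = [h] := by
    rw [parse_cd, decLL_enc]
  show (D.valid n ((decLL (parse (cd [h]))).getD 0 []) &&
    D.acc ((decLL (parse (cd [h]))).getD 0 [])) = _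
  rw [h0]
  rfl

theorem exists_hchk (D : Pool.Agent.H71.NT.Desc) (n : ℕ) : (∃ y, hchk D (n, y) = true) ↔
    ∃ h : List ℕ, D.valid n h = true ∧ D.acc h = true := by
  constructor
  · rintro ⟨y, hy⟩
    unfold hchk at hy
    rw [Bool.and_eq_true] at hy
    exact ⟨_, hy.1, hy.2⟩
  · rintro ⟨h, h1, h2⟩
    exact ⟨cd [h], by rw [hchk_cd, h1, h2]; rfl⟩

/-- The size of a certificate. -/
theorem length_cd_le {D : Pool.Agent.H71.NT.Desc} {n : ℕ} {h : List ℕ} (hv : D.valid n h = true) :
    (cd [h]).length ≤ 3 + h.length * (2 * D.nr + 2) := by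
  rw [length_cd]
  have e1 : sz [h] = 1 + sz h + 1 := rfl
  have e2 := sz_hist_le (Desc.lt_of_valid hv)
  omega

/-- **Tally languages over different alphabets.** -/
theorem tally_transfer {A B : Type} [Finite A] [Nonempty A] {P : ℕ → Prop} {t : ℕ → ℕ} (ht : ∀ n, n ≤ t n)
    (h : {w : List A | P w.length} ∈ NTIMEPol A t) : {w : List B | P w.length} ∈ NTIMEPol B t := by
  obtain ⟨a⟩ := ‹Nonempty A›
  obtain ⟨M, p, hM, hp⟩ := h
  obtain ⟨T, hT⟩ := exists_guess_machine (pt_hchk (descM M a))
  obtain ⟨N, hN, hN'⟩ := hT B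
  have hP : ∀ n, P n ↔ Accepts M (List.replicate n a) := by
    intro n
    rw [← hM]
    show P n ↔ P (List.replicate n a).length
    rw [List.length_replicate]
  refine ⟨N, T.comp (Polynomial.X + (3 + p * Polynomial.C (2 * (descM M a).nr + 2))), fun w => ?_,
    fun w hw => ?_⟩
  · rw [hN, exists_hchk]
    show P w.length ↔ _
    rw [hP]
    constructor
    · rintro ⟨s, hs⟩
      obtain ⟨y, -, hy, hy'⟩ := (acceptsIn_iff_desc M a _ _).1 hs
      exact ⟨y, hy, hy'⟩
    · rintro ⟨y, hy, hy'⟩
      exact ⟨y.length, (acceptsIn_iff_desc M a _ _).2 ⟨y, rfl, hy, hy'⟩⟩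
  · have hw' : P w.length := hw
    have h1 : List.replicate w.length a ∈ {w : List A | P w.length} := by
      show P (List.replicate w.length a).length
      rw [List.length_replicate]
      exact hw'
    obtain ⟨s, hs, hacc⟩ := hp _ h1
    rw [List.length_replicate] at hs
    obtain ⟨y, hyl, hy, hy'⟩ := (acceptsIn_iff_desc M a _ _).1 hacc
    obtain ⟨s', hs', hacc'⟩ := hN' w (cd [y]) (by rw [hchk_cd, hy, hy']; rfl)
    refine ⟨s', hs'.trans ?_, hacc'⟩
    simp only [Polynomial.eval_comp, Polynomial.eval_add, Polynomial.eval_mul,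
      Polynomial.eval_X, Polynomial.eval_C, Polynomial.eval_ofNat]
    refine eval_mono T (Nat.add_le_add (ht _) ((length_cd_le hy).trans ?_))
    rw [hyl]
    exact Nat.add_le_add_left (Nat.mul_le_mul_right _ hs) _

/-- A tally language is given by its set of lengths. -/
theorem unit_eq (L : Set (List Unit)) :
    L = {w : List Unit | List.replicate w.length () ∈ L} := by
  ext w
  show w ∈ L ↔ List.replicate w.length () ∈ L
  rw [show List.replicate w.length () = w from
    (List.eq_replicate_iff.2 ⟨rfl, fun b _ => rfl⟩).symm]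

/-- If the tally languages in `NTIME(Pol t)` are not closed under complementation, then no alphabet
is. -/
theorem not_closed_of_tally {t : ℕ → ℕ} (ht : ∀ n, n ≤ t n)
    (h : NTIMEPol Unit t ≠ coNTIMEPol Unit t) (A : Type) [Finite A] [Nonempty A] :
    NTIMEPol A t ≠ coNTIMEPol A t := by
  intro hc
  refine h (closed_iff.2 fun L hL => ?_)
  rw [unit_eq L] at hL ⊢
  have h1 : {w : List A | List.replicate w.length () ∈ L} ∈ NTIMEPol A t :=
    tally_transfer (P := fun n => List.replicate n () ∈ L) ht hL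
  have h2 := closed_iff.1 hc _ h1
  have h3 : ({w : List A | List.replicate w.length () ∈ L})ᶜ =
      {w : List A | ¬ List.replicate w.length () ∈ L} := rfl
  rw [h3] at h2
  exact tally_transfer (P := fun n => ¬ List.replicate n () ∈ L) ht h2

/-- **Certificates for complements.** -/
theorem cocert (hcl : NTIMEPol Unit (fun n => n) = coNTIMEPol Unit (fun n => n)) {P : ℕ → Prop}
    {f : ℕ × List Bool → Bool} (hf : PT f) (hP : ∀ n, (∃ y, f (n, y) = true) ↔ P n)
    {q : Polynomial ℕ} (hq : ∀ n, P n → ∃ y, f (n, y) = true ∧ y.length ≤ q.eval n) :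
    ∃ (g : ℕ × List Bool → Bool), PT g ∧ (∀ n, (∃ y, g (n, y) = true) ↔ ¬ P n) ∧
      ∃ r : Polynomial ℕ, ∀ n, ¬ P n → ∃ y, g (n, y) = true ∧ y.length ≤ r.eval n := by
  obtain ⟨T, hT⟩ := exists_guess_machine hf
  obtain ⟨N, hN, hN'⟩ := hT Unit
  have h1 : {w : List Unit | P w.length} ∈ NTIMEPol Unit (fun n => n) := by
    refine ⟨N, T.comp (Polynomial.X + q), fun w => ?_, fun w hw => ?_⟩
    · rw [hN, hP]
      rfl
    · obtain ⟨y, hy, hyl⟩ := hq _ hw
      obtain ⟨s, hs, hacc⟩ := hN' w y hy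
      refine ⟨s, hs.trans ?_, hacc⟩
      simp only [Polynomial.eval_comp, Polynomial.eval_add, Polynomial.eval_X]
      exact eval_mono T (Nat.add_le_add_left hyl _)
  obtain ⟨M, p, hM, hp⟩ := closed_iff.1 hcl _ h1
  have hP' : ∀ n, ¬ P n ↔ Accepts M (List.replicate n ()) := by
    intro n
    rw [← hM]
    show ¬ P n ↔ ¬ P (List.replicate n ()).length
    rw [List.length_replicate]
  refine ⟨hchk (descM M ()), pt_hchk _, fun n => ?_,
    3 + p * Polynomial.C (2 * (descM M ()).nr + 2), fun n hn => ?_⟩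
  · rw [exists_hchk, hP']
    constructor
    · rintro ⟨y, hy, hy'⟩
      exact ⟨y.length, (acceptsIn_iff_desc M () _ _).2 ⟨y, rfl, hy, hy'⟩⟩
    · rintro ⟨s, hs⟩
      obtain ⟨y, -, hy, hy'⟩ := (acceptsIn_iff_desc M () _ _).1 hs
      exact ⟨y, hy, hy'⟩
  · have h2 : List.replicate n () ∈ ({w : List Unit | P w.length})ᶜ := by
      show ¬ P (List.replicate n ()).length
      rw [List.length_replicate]
      exact hn
    obtain ⟨s, hs, hacc⟩ := hp _ h2
    rw [List.length_replicate] at hs
    obtain ⟨y, hyl, hy, hy'⟩ := (acceptsIn_iff_desc M () _ _).1 hacc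
    refine ⟨cd [y], by rw [hchk_cd, hy, hy']; rfl, (length_cd_le hy).trans ?_⟩
    simp only [Polynomial.eval_add, Polynomial.eval_mul, Polynomial.eval_C, Polynomial.eval_ofNat]
    rw [hyl]
    exact Nat.add_le_add_left (Nat.mul_le_mul_right _ hs) _

end Pool.Agent.H83.NHB
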